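import Mathlib
import Pool.Agent.U467.CN.Stm

set_option autoImplicit false

/-!
Project CN, package UNB: the uniform property of Baire for Borel subsets of `ℤ^ℕ × ℤ^ℕ`.
-/

namespace Pool.Agent.U603.CN

open Set MeasureTheory
open Pool.Agent.U467.CN

lemma rs_suffix (k : Z) {m m' : ℕ} (h : m ≤ m') : rs k m <:+ rs k m' := by
  induction m', h using Nat.le_induction with
  | base => exact List.suffix_refl _
  | succ n _ ih => exact ih.trans (List.suffix_cons _ _)

lemma of_suffix (k : Z) (m : ℕ) (t : List ℤ) (h : t <:+ rs k m) : ∃ m', m' ≤ m ∧ t = rs k m' := by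
  induction m with
  | zero =>
    have h' : t <:+ [] := h
    rw [List.suffix_nil] at h'
    exact ⟨0, le_rfl, h'⟩
  | succ m ih =>
    have h' : t <:+ k m :: rs k m := h
    rw [List.suffix_cons_iff] at h'
    rcases h' with h' | h'
    · exact ⟨m + 1, le_rfl, h'⟩
    · obtain ⟨m', h1, h2⟩ := ih h'
      exact ⟨m', by omega, h2⟩

/-- the good sets -/
def Good (D : Set (Z × Z)) : Prop :=
  ∃ (O : List ℤ → Set Z) (G : ℕ → List ℤ → Set Z), (∀ t, MeasurableSet (O t)) ∧
    (∀ n t, MeasurableSet (G n t)) ∧ (∀ n z t, ∃ t', t <:+ t' ∧ z ∈ G n t') ∧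
    ∀ z k : Z, (∀ n, ∃ m, z ∈ G n (rs k m)) → ((z, k) ∈ D ↔ ∃ m, z ∈ O (rs k m))

lemma good_empty : Good ∅ := by
  refine ⟨fun _ => ∅, fun _ _ => univ, fun _ => MeasurableSet.empty, fun _ _ => MeasurableSet.univ,
    fun _ _ t => ⟨t, List.suffix_refl _, trivial⟩, fun z k _ => ?_⟩
  simp

lemma good_compl (D : Set (Z × Z)) (h : Good D) : Good Dᶜ := by
  obtain ⟨O, G, hO, hG, hd, hD⟩ := h
  let N : List ℤ → Set Z := fun t => {z | ∀ t', t <:+ t' → z ∉ O t'} ∩ {z | ∀ t', t' <:+ t → z ∉ O t'}
  let Y : List ℤ → Set Z := fun t => {z | ∃ t', t' <:+ t ∧ z ∈ O t'}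
  have hN : ∀ t, MeasurableSet (N t) := by
    intro t
    apply MeasurableSet.inter
    · have : {z | ∀ t', t <:+ t' → z ∉ O t'} = ⋂ t', ⋂ (_ : t <:+ t'), (O t')ᶜ := by
        ext z; simp
      rw [this]
      exact MeasurableSet.iInter fun t' => MeasurableSet.iInter fun _ => (hO t').compl
    · have : {z | ∀ t', t' <:+ t → z ∉ O t'} = ⋂ t', ⋂ (_ : t' <:+ t), (O t')ᶜ := by
        ext z; simp
      rw [this]
      exact MeasurableSet.iInter fun t' => MeasurableSet.iInter fun _ => (hO t').compl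
  have hY : ∀ t, MeasurableSet (Y t) := by
    intro t
    have : Y t = ⋃ t', ⋃ (_ : t' <:+ t), O t' := by
      ext z; simp [Y]
    rw [this]
    exact MeasurableSet.iUnion fun t' => MeasurableSet.iUnion fun _ => hO t'
  refine ⟨N, fun n t => Nat.casesOn n (N t ∪ Y t) (fun n => G n t), hN, ?_, ?_, ?_⟩
  · intro n t
    cases n with
    | zero => exact (hN t).union (hY t)
    | succ n => exact hG n t
  · intro n z t
    cases n with
    | succ n => exact hd n z t
    | zero =>
      by_cases h1 : ∃ t', t <:+ t' ∧ z ∈ O t'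
      · obtain ⟨t', h2, h3⟩ := h1
        exact ⟨t', h2, Or.inr ⟨t', List.suffix_refl _, h3⟩⟩
      · by_cases h2 : ∃ t', t' <:+ t ∧ z ∈ O t'
        · exact ⟨t, List.suffix_refl _, Or.inr h2⟩
        · refine ⟨t, List.suffix_refl _, Or.inl ⟨?_, ?_⟩⟩
          · intro t' h3 h4
            exact h1 ⟨t', h3, h4⟩
          · intro t' h3 h4
            exact h2 ⟨t', h3, h4⟩
  · intro z k hk
    have h1 := hD z k (fun n => hk (n + 1))
    rw [mem_compl_iff, h1]
    constructor
    · intro h2
      obtain ⟨m, hm⟩ := hk 0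
      refine ⟨m, ?_⟩
      rcases hm with hm | ⟨t', h3, h4⟩
      · exact hm
      · obtain ⟨m', -, rfl⟩ := of_suffix k m t' h3
        exact absurd ⟨m', h4⟩ h2
    · rintro ⟨m, h2, h3⟩ ⟨m', h4⟩
      rcases le_total m m' with h5 | h5
      · exact h2 _ (rs_suffix k h5) h4
      · exact h3 _ (rs_suffix k h5) h4

lemma good_iUnion (D : ℕ → Set (Z × Z)) (h : ∀ i, Good (D i)) : Good (⋃ i, D i) := by
  choose O G hO hG hd hD using h
  refine ⟨fun t => ⋃ i, O i t, fun n t => G n.unpair.1 n.unpair.2 t,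
    fun t => MeasurableSet.iUnion fun i => hO i t, fun n t => hG _ _ t, fun n z t => hd _ _ z t, ?_⟩
  intro z k hk
  have h1 : ∀ i, (z, k) ∈ D i ↔ ∃ m, z ∈ O i (rs k m) := by
    intro i
    apply hD i z k
    intro n
    have := hk (Nat.pair i n)
    simpa using this
  rw [mem_iUnion]
  constructor
  · rintro ⟨i, hi⟩
    obtain ⟨m, hm⟩ := (h1 i).1 hi
    exact ⟨m, mem_iUnion.2 ⟨i, hm⟩⟩
  · rintro ⟨m, hm⟩
    obtain ⟨i, hi⟩ := mem_iUnion.1 hm
    exact ⟨i, (h1 i).2 ⟨m, hi⟩⟩

/-- the sigma-algebra of the good sets -/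
def goodMS : MeasurableSpace (Z × Z) where
  MeasurableSet' := Good
  measurableSet_empty := good_empty
  measurableSet_compl := good_compl
  measurableSet_iUnion := good_iUnion

lemma good_fst (S : Set Z) (hS : MeasurableSet S) : Good (Prod.fst ⁻¹' S) := by
  refine ⟨fun _ => S, fun _ _ => univ, fun _ => hS, fun _ _ => MeasurableSet.univ,
    fun _ _ t => ⟨t, List.suffix_refl _, trivial⟩, fun z k _ => ?_⟩
  constructor
  · intro h; exact ⟨0, h⟩
  · rintro ⟨_, h⟩; exact h

lemma good_snd (m : ℕ) (A : Set ℤ) : Good ((fun x : Z × Z => x.2 m) ⁻¹' A) := by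
  refine ⟨fun t => {_z | ∃ a s, t = a :: s ∧ s.length = m ∧ a ∈ A}, fun _ t => {_z | m < t.length},
    fun _ => MeasurableSet.const _, fun _ _ => MeasurableSet.const _, ?_, ?_⟩
  · intro n z t
    refine ⟨List.replicate (m + 1) 0 ++ t, List.suffix_append _ _, ?_⟩
    change m < (List.replicate (m + 1) (0 : ℤ) ++ t).length
    rw [List.length_append, List.length_replicate]
    omega
  · intro z k _
    constructor
    · intro h
      exact ⟨m + 1, k m, rs k m, rfl, PiNat.res_length _ _, h⟩
    · rintro ⟨n, a, s, h1, h2, h3⟩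
      cases n with
      | zero =>
        have h1' : ([] : List ℤ) = a :: s := h1
        exact absurd h1' (by simp)
      | succ n =>
        have h1' : k n :: rs k n = a :: s := h1
        rw [List.cons.injEq] at h1'
        have h4 : n = m := by
          rw [← h2, ← h1'.2]
          exact (PiNat.res_length _ _).symm
        subst h4
        change k n ∈ A
        rw [h1'.1]
        exact h3

theorem t_UNB : S_UNB := by
  intro D hD
  have hle : (Prod.instMeasurableSpace : MeasurableSpace (Z × Z)) ≤ goodMS := by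
    apply sup_le
    · rintro _ ⟨S, hS, rfl⟩
      exact good_fst S hS
    · change MeasurableSpace.comap Prod.snd (⨆ m, MeasurableSpace.comap (fun z : Z => z m) _) ≤ _
      rw [MeasurableSpace.comap_iSup]
      apply iSup_le
      intro m
      rw [MeasurableSpace.comap_comp]
      rintro _ ⟨A, -, rfl⟩
      exact good_snd m A
  exact hle D hD

end Pool.Agent.U603.CN
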